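import Pool.Agent.Work.MP_bb6995_co.F.All

/-!
MP_bb6995_co, Q1 in full: for every `n ≥ 3` the minimum of average distance / radius over
the connected graphs on `n` vertices is attained by a bag.
-/

namespace Pool.Agent.Results.MP_bb6995_co.AllOrders

open Pool.Agent.BagR

/-- For every `n ≥ 3` there is a bag `Bag_{p,k}` with `p + k - 2 = n` vertices whose
ratio of average distance to radius is at most that of every connected graph on `n`
vertices. -/
theorem result (n : ℕ) (hn : 3 ≤ n) :
    ∃ p k : ℕ, 2 ≤ p ∧ 2 ≤ k ∧ p + k = n + 2 ∧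
      ∀ G : SimpleGraph (Fin n), G.Connected →
        avgDist (bag p k) / (rad (bag p k) : ℝ) ≤ avgDist G / (rad G : ℝ) :=
  bag_min_all steps hn

end Pool.Agent.Results.MP_bb6995_co.AllOrders
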